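import Mathlib
import Pool.Agent.PlateCompliance.Main

set_option autoImplicit false

open Filter Topology MeasureTheory
open scoped NNReal ENNReal

namespace Pool.Agent.Results.MP_d3943d_an.TotalDeflectionIsCompliance

open Pool.PlateCompliance

variable {N : ℕ} {Ω : Set (Eu N)} {φ ψ : Eu N → ℝ}

/-- a measurable sign -/
theorem exists_sign {f : Eu N → ℝ} (hf : AEStronglyMeasurable f volume) :
    ∃ σ : Eu N → ℝ, Measurable σ ∧ (∀ x, σ x = 1 ∨ σ x = -1) ∧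
      ∀ᵐ x ∂(volume : Measure (Eu N)), σ x * f x = |f x| := by
  classical
  set g := hf.mk f with hg
  have hgm : Measurable g := hf.stronglyMeasurable_mk.measurable
  refine ⟨fun x => if 0 ≤ g x then 1 else -1, ?_, ?_, ?_⟩
  · exact Measurable.ite (measurableSet_le measurable_const hgm) measurable_const measurable_const
  · intro x
    by_cases h : 0 ≤ g x <;> simp [h]
  · filter_upwards [hf.ae_eq_mk] with x hx
    have hx' : f x = g x := hx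
    rw [hx']
    by_cases h : 0 ≤ g x
    · simp [h, abs_of_nonneg h]
    · simp [h, abs_of_neg (not_le.mp h)]

theorem isLoad_sign {σ : Eu N → ℝ} (hm : Measurable σ) (h : ∀ x, σ x = 1 ∨ σ x = -1) :
    IsLoad Ω σ := by
  refine ⟨hm, fun x _ => ?_⟩
  rcases h x with h | h <;> simp [h]

theorem integrableOn_of_memLp (hΩ : volume Ω < ⊤) {u : Eu N → ℝ} (hu : MemLp u 2 volume) :
    IntegrableOn u Ω volume := by
  have : IsFiniteMeasure ((volume : Measure (Eu N)).restrict Ω) := ⟨by simpa using hΩ⟩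
  exact (hu.restrict Ω).integrable (by norm_num)

/-- the work of one load on the deflection of another load -/
theorem key (hO : IsOpen Ω) (hΩ : volume Ω < ⊤) {ρ u σ w : Eu N → ℝ}
    (hρ : IsLoad Ω ρ) (hd : IsDeflection Ω ρ u) (hσ : IsLoad Ω σ) (hw : IsDeflection Ω σ w) :
    (∫ x in Ω, σ x * u x) ^ 2 ≤ (∫ x in Ω, ρ x * u x) * ∫ x in Ω, σ x * w x := by
  obtain ⟨g, v, hg, hv, hgr⟩ := deflection_data hO hΩ hρ hd
  obtain ⟨g', v', hg', hv', hgr'⟩ := deflection_data hO hΩ hσ hw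
  have e1 : inner ℝ g' g = ∫ x in Ω, σ x * u x := by
    rw [← inner_load hO hΩ hσ hd.1.1]
    have t1 : Tendsto (fun n => inner ℝ g' (DD Ω (v n))) atTop (𝓝 (inner ℝ g' g)) :=
      tendsto_const_nhds.inner hg
    simp_rw [hgr'] at t1
    exact tendsto_nhds_unique t1 (tendsto_const_nhds.inner hv)
  have e2 : inner ℝ g g = ∫ x in Ω, ρ x * u x := by
    rw [← inner_load hO hΩ hρ hd.1.1]
    have t1 : Tendsto (fun n => inner ℝ g (DD Ω (v n))) atTop (𝓝 (inner ℝ g g)) :=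
      tendsto_const_nhds.inner hg
    simp_rw [hgr] at t1
    exact tendsto_nhds_unique t1 (tendsto_const_nhds.inner hv)
  have e3 : inner ℝ g' g' = ∫ x in Ω, σ x * w x := by
    rw [← inner_load hO hΩ hσ hw.1.1]
    have t1 : Tendsto (fun n => inner ℝ g' (DD Ω (v' n))) atTop (𝓝 (inner ℝ g' g')) :=
      tendsto_const_nhds.inner hg'
    simp_rw [hgr'] at t1
    exact tendsto_nhds_unique t1 (tendsto_const_nhds.inner hv')
  rw [← e1, ← e2, ← e3]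
  have h := real_inner_mul_inner_self_le g' g
  nlinarith [h]

theorem compliance_nonneg (hO : IsOpen Ω) (hΩ : volume Ω < ⊤) {ρ u : Eu N → ℝ}
    (hρ : IsLoad Ω ρ) (hd : IsDeflection Ω ρ u) : 0 ≤ ∫ x in Ω, ρ x * u x := by
  obtain ⟨g, v, hg, hv, hgr⟩ := deflection_data hO hΩ hρ hd
  have e2 : inner ℝ g g = ∫ x in Ω, ρ x * u x := by
    rw [← inner_load hO hΩ hρ hd.1.1]
    have t1 : Tendsto (fun n => inner ℝ g (DD Ω (v n))) atTop (𝓝 (inner ℝ g g)) :=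
      tendsto_const_nhds.inner hg
    simp_rw [hgr] at t1
    exact tendsto_nhds_unique t1 (tendsto_const_nhds.inner hv)
  rw [← e2]
  exact real_inner_self_nonneg

theorem compliance_le (hO : IsOpen Ω) (hΩ : volume Ω < ⊤) {ρ u : Eu N → ℝ}
    (hρ : IsLoad Ω ρ) (hu : MemLp u 2 volume) : ∫ x in Ω, ρ x * u x ≤ ∫ x in Ω, |u x| := by
  have hi := integrableOn_of_memLp hΩ hu
  have hm : MeasurableSet Ω := hO.measurableSet
  have h1 : ∀ᵐ x ∂((volume : Measure (Eu N)).restrict Ω), ‖ρ x‖ ≤ 1 :=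
    (ae_restrict_iff' hm).mpr (Filter.Eventually.of_forall fun x hx => by
      rw [Real.norm_eq_abs]; exact hρ.2 x hx)
  have h2 : Integrable (fun x => ρ x * u x) ((volume : Measure (Eu N)).restrict Ω) :=
    hi.bdd_mul hρ.1.aestronglyMeasurable h1
  refine integral_mono_ae h2 hi.abs ?_
  filter_upwards [h1] with x hx
  rw [Real.norm_eq_abs] at hx
  calc ρ x * u x ≤ |ρ x * u x| := le_abs_self _
    _ = |ρ x| * |u x| := abs_mul _ _
    _ ≤ 1 * |u x| := by gcongr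
    _ = |u x| := one_mul _

/-- Every total deflection is at most a compliance. -/
theorem main_ineq (hN : 2 ≤ N) (hO : IsOpen Ω) (hΩ : volume Ω < ⊤) {ρ u : Eu N → ℝ}
    (hρ : IsLoad Ω ρ) (hd : IsDeflection Ω ρ u) :
    ∃ σ w, (∀ x, σ x = 1 ∨ σ x = -1) ∧ IsLoad Ω σ ∧ IsDeflection Ω σ w ∧
      (∫ x in Ω, |u x|) ^ 2 ≤ (∫ x in Ω, ρ x * u x) * (∫ x in Ω, σ x * w x) ∧
      ∫ x in Ω, |u x| ≤ ∫ x in Ω, σ x * w x := by
  obtain ⟨σ, hσm, hσs, hσe⟩ := exists_sign hd.1.1.1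
  have hσ : IsLoad Ω σ := isLoad_sign hσm hσs
  obtain ⟨w, hw⟩ := exists_deflection hN hO hΩ hσ
  have e : ∫ x in Ω, σ x * u x = ∫ x in Ω, |u x| :=
    integral_congr_ae (ae_restrict_of_ae hσe)
  have h := key hO hΩ hρ hd hσ hw
  rw [e] at h
  refine ⟨σ, w, hσs, hσ, hw, h, ?_⟩
  have h1 := compliance_le hO hΩ hρ hd.1.1
  have h2 : 0 ≤ ∫ x in Ω, |u x| := integral_nonneg fun x => abs_nonneg _
  have h3 := compliance_nonneg hO hΩ hσ hw
  rcases h2.eq_or_lt with h4 | h4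
  · rw [← h4]; exact h3
  · have h5 : (∫ x in Ω, |u x|) * (∫ x in Ω, |u x|)
        ≤ (∫ x in Ω, |u x|) * ∫ x in Ω, σ x * w x := by
      calc (∫ x in Ω, |u x|) * (∫ x in Ω, |u x|) = (∫ x in Ω, |u x|) ^ 2 := by ring
        _ ≤ _ := h
        _ ≤ _ := mul_le_mul_of_nonneg_right h1 h3
    exact le_of_mul_le_mul_left h5 h4

theorem iff_compliance (hN : 2 ≤ N) (hO : IsOpen Ω) (hΩ : volume Ω < ⊤) (C : ℝ) :
    (∀ ρ u, IsLoad Ω ρ → IsDeflection Ω ρ u → ∫ x in Ω, |u x| ≤ C) ↔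
      ∀ ρ u, IsLoad Ω ρ → IsDeflection Ω ρ u → ∫ x in Ω, ρ x * u x ≤ C := by
  constructor
  · intro h ρ u hρ hd
    exact (compliance_le hO hΩ hρ hd.1.1).trans (h ρ u hρ hd)
  · intro h ρ u hρ hd
    obtain ⟨σ, w, -, hσ, hw, -, hle⟩ := main_ineq hN hO hΩ hρ hd
    exact hle.trans (h σ w hσ hw)

theorem rayleigh_of_compliance (hN : 2 ≤ N) (hO : IsOpen Ω) (hΩ : volume Ω < ⊤) {C : ℝ}
    (h : ∀ ρ u, IsLoad Ω ρ → IsDeflection Ω ρ u → ∫ x in Ω, ρ x * u x ≤ C)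
    (hφ : IsTest Ω φ) : (∫ x, |φ x|) ^ 2 ≤ C * ∫ x, lap φ x ^ 2 := by
  obtain ⟨σ, hσm, hσs, hσe⟩ := exists_sign (hφ.memLp 2).1
  have hσ : IsLoad Ω σ := isLoad_sign hσm hσs
  obtain ⟨w, hw⟩ := exists_deflection hN hO hΩ hσ
  obtain ⟨g', v', hg', hv', hgr'⟩ := deflection_data hO hΩ hσ hw
  have e3 : inner ℝ g' g' = ∫ x in Ω, σ x * w x := by
    rw [← inner_load hO hΩ hσ hw.1.1]
    have t1 : Tendsto (fun n => inner ℝ g' (DD Ω (v' n))) atTop (𝓝 (inner ℝ g' g')) :=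
      tendsto_const_nhds.inner hg'
    simp_rw [hgr'] at t1
    exact tendsto_nhds_unique t1 (tendsto_const_nhds.inner hv')
  have e4 : inner ℝ g' (DD Ω ⟨φ, hφ⟩) = ∫ x, |φ x| := by
    rw [hgr', inner_load_test hO hΩ hσ]
    exact integral_congr_ae hσe
  have h1 := real_inner_mul_inner_self_le g' (DD Ω ⟨φ, hφ⟩)
  rw [e4, e3, real_inner_self_eq_norm_sq, norm_DD_sq] at h1
  have h2 := h σ w hσ hw
  have h3 : 0 ≤ ∫ x, lap φ x ^ 2 := integral_nonneg fun x => sq_nonneg _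
  calc (∫ x, |φ x|) ^ 2 = (∫ x, |φ x|) * ∫ x, |φ x| := by ring
    _ ≤ (∫ x in Ω, σ x * w x) * ∫ x, lap φ x ^ 2 := h1
    _ ≤ C * ∫ x, lap φ x ^ 2 := mul_le_mul_of_nonneg_right h2 h3

theorem deflection_of_rayleigh (hO : IsOpen Ω) (hΩ : volume Ω < ⊤) {C : ℝ} (hC : 0 ≤ C)
    (h : ∀ φ, IsTest Ω φ → (∫ x, |φ x|) ^ 2 ≤ C * ∫ x, lap φ x ^ 2)
    {ρ u : Eu N → ℝ} (hρ : IsLoad Ω ρ) (hd : IsDeflection Ω ρ u) :
    ∫ x in Ω, |u x| ≤ C := by
  obtain ⟨g, v, hg, hv, hgr⟩ := deflection_data hO hΩ hρ hd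
  have e2 : inner ℝ g g = ∫ x in Ω, ρ x * u x := by
    rw [← inner_load hO hΩ hρ hd.1.1]
    have t1 : Tendsto (fun n => inner ℝ g (DD Ω (v n))) atTop (𝓝 (inner ℝ g g)) :=
      tendsto_const_nhds.inner hg
    simp_rw [hgr] at t1
    exact tendsto_nhds_unique t1 (tendsto_const_nhds.inner hv)
  obtain ⟨σ, hσm, hσs, hσe⟩ := exists_sign hd.1.1.1
  have hσ : IsLoad Ω σ := isLoad_sign hσm hσs
  have e : ∫ x in Ω, σ x * u x = ∫ x in Ω, |u x| :=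
    integral_congr_ae (ae_restrict_of_ae hσe)
  have t1 : Tendsto (fun n => inner ℝ ((memLp_load hO hΩ hσ).toLp _) (JJ Ω (v n))) atTop
      (𝓝 (∫ x in Ω, |u x|)) := by
    rw [← e, ← inner_load hO hΩ hσ hd.1.1]
    exact tendsto_const_nhds.inner hv
  have t2 : Tendsto (fun n => C * ‖DD Ω (v n)‖ ^ 2) atTop (𝓝 (C * ‖g‖ ^ 2)) :=
    (hg.norm.pow 2).const_mul C
  have hle : ∀ n, (inner ℝ ((memLp_load hO hΩ hσ).toLp _) (JJ Ω (v n))) ^ 2
      ≤ C * ‖DD Ω (v n)‖ ^ 2 := by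
    intro n
    rw [inner_load_test hO hΩ hσ, norm_DD_sq]
    refine le_trans ?_ (h _ (v n).2)
    rw [sq_le_sq]
    have hvi : Integrable ((v n : VV Ω) : Eu N → ℝ) := IsTest.integrable (v n).2
    have h1 : |∫ x, σ x * ((v n : VV Ω) : Eu N → ℝ) x| ≤ ∫ x, |((v n : VV Ω) : Eu N → ℝ) x| := by
      refine (abs_integral_le_integral_abs).trans (le_of_eq ?_)
      congr 1; funext x
      rw [abs_mul]
      rcases hσs x with h | h <;> simp [h]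
    exact h1.trans (le_abs_self _)
  have h4 : (∫ x in Ω, |u x|) ^ 2 ≤ C * ‖g‖ ^ 2 :=
    le_of_tendsto_of_tendsto' (t1.pow 2) t2 hle
  rw [← real_inner_self_eq_norm_sq, e2] at h4
  have h5 := compliance_le hO hΩ hρ hd.1.1
  have h6 : 0 ≤ ∫ x in Ω, |u x| := integral_nonneg fun x => abs_nonneg _
  rcases h6.eq_or_lt with h7 | h7
  · rw [← h7]; exact hC
  · have h8 : (∫ x in Ω, |u x|) * (∫ x in Ω, |u x|) ≤ (∫ x in Ω, |u x|) * C := by
      calc (∫ x in Ω, |u x|) * (∫ x in Ω, |u x|) = (∫ x in Ω, |u x|) ^ 2 := by ring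
        _ ≤ C * ∫ x in Ω, ρ x * u x := h4
        _ ≤ C * ∫ x in Ω, |u x| := mul_le_mul_of_nonneg_left h5 hC
        _ = _ := by ring
    exact le_of_mul_le_mul_left h8 h7

/-- total deflection of the clamped ball of radius `R` under the load `1` -/
noncomputable def ballValue (N : ℕ) (R : ℝ) : ℝ :=
  ∫ x in Metric.ball (0 : Eu N) R, (R ^ 2 - ‖x‖ ^ 2) ^ 2 / (8 * (N : ℝ) * ((N : ℝ) + 2))

theorem ballValue_nonneg (N : ℕ) (R : ℝ) : 0 ≤ ballValue N R :=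
  integral_nonneg fun x => by positivity

/-- every load has a deflection -/
def HasDeflections (Ω : Set (Eu N)) : Prop := ∀ ρ, IsLoad Ω ρ → ∃ u, IsDeflection Ω ρ u

/-- every total deflection is controlled by the compliance of a load with values `1`, `-1` -/
def Dominated (Ω : Set (Eu N)) : Prop :=
  ∀ ρ u, IsLoad Ω ρ → IsDeflection Ω ρ u →
    ∃ σ w, (∀ x, σ x = 1 ∨ σ x = -1) ∧ IsLoad Ω σ ∧ IsDeflection Ω σ w ∧
      (∫ x in Ω, |u x|) ^ 2 ≤ (∫ x in Ω, ρ x * u x) * (∫ x in Ω, σ x * w x) ∧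
      ∫ x in Ω, |u x| ≤ ∫ x in Ω, σ x * w x

/-- total deflections are at most `C` -/
def TotalLE (Ω : Set (Eu N)) (C : ℝ) : Prop :=
  ∀ ρ u, IsLoad Ω ρ → IsDeflection Ω ρ u → ∫ x in Ω, |u x| ≤ C

/-- compliances are at most `C` -/
def ComplianceLE (Ω : Set (Eu N)) (C : ℝ) : Prop :=
  ∀ ρ u, IsLoad Ω ρ → IsDeflection Ω ρ u → ∫ x in Ω, ρ x * u x ≤ C

/-- `‖φ‖₁² ≤ C ‖Δφ‖₂²` for test functions -/
def TestLE (Ω : Set (Eu N)) (C : ℝ) : Prop :=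
  ∀ φ, IsTest Ω φ → (∫ x, |φ x|) ^ 2 ≤ C * ∫ x, lap φ x ^ 2

/-- deflections of one sign are at most, in total, the deflection under the load `1` -/
def OneSigned (Ω : Set (Eu N)) : Prop :=
  ∀ ρ u w, IsLoad Ω ρ → IsDeflection Ω ρ u → IsDeflection Ω (fun _ => 1) w →
    ((∀ᵐ x ∂(volume : Measure (Eu N)).restrict Ω, 0 ≤ u x) ∨
      ∀ᵐ x ∂(volume : Measure (Eu N)).restrict Ω, u x ≤ 0) →
    ∫ x in Ω, |u x| ≤ ∫ x in Ω, w x

theorem one_signed (hO : IsOpen Ω) (hΩ : volume Ω < ⊤) : OneSigned Ω := by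
  intro ρ u w hρ hd hw hs
  have h1 : IsLoad Ω (fun _ : Eu N => (1 : ℝ)) := ⟨measurable_const, fun x _ => by simp⟩
  have hk := key hO hΩ hρ hd h1 hw
  simp only [one_mul] at hk
  have hn := compliance_nonneg hO hΩ h1 hw
  simp only [one_mul] at hn
  have e : (∫ x in Ω, u x) ^ 2 = (∫ x in Ω, |u x|) ^ 2 := by
    rcases hs with hs | hs
    · congr 1
      refine integral_congr_ae ?_
      filter_upwards [hs] with x hx
      rw [abs_of_nonneg hx]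
    · have : ∫ x in Ω, |u x| = - ∫ x in Ω, u x := by
        rw [← integral_neg]
        refine integral_congr_ae ?_
        filter_upwards [hs] with x hx
        rw [abs_of_nonpos hx]
      rw [this]; ring
  rw [e] at hk
  have h2 := compliance_le hO hΩ hρ hd.1.1
  have h3 : 0 ≤ ∫ x in Ω, |u x| := integral_nonneg fun x => abs_nonneg _
  rcases h3.eq_or_lt with h4 | h4
  · rw [← h4]; exact hn
  · have h5 : (∫ x in Ω, |u x|) * (∫ x in Ω, |u x|) ≤ (∫ x in Ω, |u x|) * ∫ x in Ω, w x := by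
      calc (∫ x in Ω, |u x|) * (∫ x in Ω, |u x|) = (∫ x in Ω, |u x|) ^ 2 := by ring
        _ ≤ _ := hk
        _ ≤ _ := mul_le_mul_of_nonneg_right h2 hn
    exact le_of_mul_le_mul_left h5 h4

/-- `P Ω C` holds for all open `Ω` of finite volume, `C` the value of the ball of equal volume -/
def BallOptimal (N : ℕ) (P : Set (Eu N) → ℝ → Prop) : Prop :=
  ∀ Ω : Set (Eu N), IsOpen Ω → volume Ω < ⊤ → ∀ R : ℝ, 0 < R →
    volume Ω = volume (Metric.ball (0 : Eu N) R) → P Ω (ballValue N R)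

/-- The statement `S06265` in dimension `N`, verbatim, is `BallOptimal N TotalLE`. -/
theorem frozen_iff (N : ℕ) : (∀ (Ω : Set (EuclideanSpace ℝ (Fin N))), IsOpen Ω → MeasureTheory.volume Ω < ⊤ →
  ∀ (R : ℝ), 0 < R →
    MeasureTheory.volume Ω = MeasureTheory.volume (Metric.ball (0 : EuclideanSpace ℝ (Fin N)) R) →
  ∀ (ρ : EuclideanSpace ℝ (Fin N) → ℝ), Measurable ρ → (∀ x ∈ Ω, |ρ x| ≤ 1) →
  ∀ (u : EuclideanSpace ℝ (Fin N) → ℝ), MeasureTheory.MemLp u 2 MeasureTheory.volume →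
  (∃ φ : ℕ → EuclideanSpace ℝ (Fin N) → ℝ,
     (∀ n, ContDiff ℝ ((⊤ : ℕ∞) : WithTop ℕ∞) (φ n) ∧ HasCompactSupport (φ n) ∧ tsupport (φ n) ⊆ Ω) ∧
     (∀ ε : ℝ, 0 < ε → ∃ K : ℕ, ∀ n, K ≤ n → ∀ k, K ≤ k →
        ∫ x, ((φ n x - φ k x) ^ 2 + ‖fderiv ℝ (φ n - φ k) x‖ ^ 2
              + ‖fderiv ℝ (fderiv ℝ (φ n - φ k)) x‖ ^ 2) < ε) ∧
     Filter.Tendsto (fun n => ∫ x, (φ n x - u x) ^ 2) Filter.atTop (nhds 0)) →
  (∀ ψ : EuclideanSpace ℝ (Fin N) → ℝ, ContDiff ℝ ((⊤ : ℕ∞) : WithTop ℕ∞) ψ →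
     HasCompactSupport ψ → tsupport ψ ⊆ Ω →
     ∫ x, u x * ∑ i : Fin N, ∑ j : Fin N,
        iteratedFDeriv ℝ 4 ψ x
          ![EuclideanSpace.single i (1 : ℝ), EuclideanSpace.single i (1 : ℝ),
            EuclideanSpace.single j (1 : ℝ), EuclideanSpace.single j (1 : ℝ)]
      = ∫ x, ρ x * ψ x) →
  ∫ x in Ω, |u x| ≤
    ∫ x in Metric.ball (0 : EuclideanSpace ℝ (Fin N)) R,
      (R ^ 2 - ‖x‖ ^ 2) ^ 2 / (8 * (N : ℝ) * ((N : ℝ) + 2))) ↔ BallOptimal N TotalLE := by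
  constructor
  · intro h Ω hO hΩ R hR hV ρ u hρ hd
    exact h Ω hO hΩ R hR hV ρ hρ.1 hρ.2 u hd.1.1 hd.1.2
      (fun ψ h1 h2 h3 => hd.2 ψ ⟨h1, h2, h3⟩)
  · intro h Ω hO hΩ R hR hV ρ hρ1 hρ2 u hu hφ hψ
    exact h Ω hO hΩ R hR hV ρ u ⟨hρ1, hρ2⟩
      ⟨⟨hu, hφ⟩, fun ψ hψ' => hψ ψ hψ'.1 hψ'.2.1 hψ'.2.2⟩

theorem result (N : ℕ) (hN : 2 ≤ N) :
    (∀ Ω : Set (Eu N), IsOpen Ω → volume Ω < ⊤ →
      HasDeflections Ω ∧ Dominated Ω ∧ OneSigned Ω ∧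
      ∀ C : ℝ, 0 ≤ C → (TotalLE Ω C ↔ ComplianceLE Ω C) ∧ (TotalLE Ω C ↔ TestLE Ω C)) ∧
    (BallOptimal N TotalLE ↔ BallOptimal N ComplianceLE) ∧
    (BallOptimal N TotalLE ↔ BallOptimal N TestLE) := by
  have hT : ∀ Ω : Set (Eu N), IsOpen Ω → volume Ω < ⊤ → ∀ C : ℝ, 0 ≤ C →
      (TotalLE Ω C ↔ ComplianceLE Ω C) ∧ (TotalLE Ω C ↔ TestLE Ω C) := by
    intro Ω hO hΩ C hC
    refine ⟨iff_compliance hN hO hΩ C, fun h φ hφ => ?_, fun h ρ u hρ hd => ?_⟩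
    · exact rayleigh_of_compliance hN hO hΩ ((iff_compliance hN hO hΩ C).mp h) hφ
    · exact deflection_of_rayleigh hO hΩ hC h hρ hd
  refine ⟨fun Ω hO hΩ => ⟨fun ρ hρ => exists_deflection hN hO hΩ hρ,
    fun ρ u hρ hd => main_ineq hN hO hΩ hρ hd, one_signed hO hΩ, hT Ω hO hΩ⟩,
    ⟨?_, ?_⟩, ⟨?_, ?_⟩⟩
  · exact fun h Ω hO hΩ R hR hV => (hT Ω hO hΩ _ (ballValue_nonneg N R)).1.mp (h Ω hO hΩ R hR hV)
  · exact fun h Ω hO hΩ R hR hV => (hT Ω hO hΩ _ (ballValue_nonneg N R)).1.mpr (h Ω hO hΩ R hR hV)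
  · exact fun h Ω hO hΩ R hR hV => (hT Ω hO hΩ _ (ballValue_nonneg N R)).2.mp (h Ω hO hΩ R hR hV)
  · exact fun h Ω hO hΩ R hR hV => (hT Ω hO hΩ _ (ballValue_nonneg N R)).2.mpr (h Ω hO hΩ R hR hV)

end Pool.Agent.Results.MP_d3943d_an.TotalDeflectionIsCompliance
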